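import Pool.Agent.Helper79.KQ.Defs
import Pool.Agent.Helper98.KN.N3a

/-!
A Lie algebra of matrices which is stable under conjugation by integral matrices that reduce to unipotent matrices which span
all matrices of trace zero contains all matrices of trace zero.
-/

set_option autoImplicit false

open Matrix H77MT Pool.Agent.Helper79.KN

namespace Pool.Agent.Helper79.KQ

open Pool.Agent.Helper79.KM (redL span_of_red98)
open Pool.Agent.Helper98.CK (exists_max98)

section ideal
variable {K : Type*} [Field K] {n : Type*} [Fintype n] [DecidableEq n]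

/-- a space of matrices, stable under brackets with matrices of trace `0`, that contains a non-scalar matrix contains all
matrices of trace `0` (the proof is helper68's) -/
theorem ideal_top98 (h2 : (2 : K) ≠ 0) (M : Submodule K (Matrix n n K))
    (hM : ∀ d : Matrix n n K, d.trace = 0 → ∀ c ∈ M, d * c - c * d ∈ M) {c : Matrix n n K} (hc : c ∈ M)
    (hns : ∀ l : K, c ≠ l • (1 : Matrix n n K)) (x : Matrix n n K) (hx : x.trace = 0) : x ∈ M := by
  -- off-diagonal entries
  have h1 : ∀ c ∈ M, ∀ i j : n, i ≠ j → c i j ≠ 0 → single j i (1 : K) ∈ M := by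
    intro c hc i j hij hne
    have htr : (single j i (1 : K)).trace = 0 := Matrix.trace_single_eq_of_ne _ _ _ (Ne.symm hij)
    have h3 := hM (single j i 1) htr _ (hM (single j i 1) htr c hc)
    have h4 : single j i (1 : K) * (single j i 1 * c - c * single j i 1) -
        (single j i 1 * c - c * single j i 1) * single j i 1 = (-2 * c i j) • single j i (1 : K) := by
      have h5 : single j i (1 : K) * single j i 1 = 0 := single_mul_single_of_ne _ _ _ _ hij _
      have h6 : single j i (1 : K) * c * single j i 1 = c i j • single j i (1 : K) := by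
        rw [single_mul_mul_single, smul_single]
        simp
      have h7 : single j i (1 : K) * (single j i 1 * c - c * single j i 1) -
        (single j i 1 * c - c * single j i 1) * single j i 1 =
          (single j i (1 : K) * single j i 1) * c - (2 : K) • (single j i (1 : K) * c * single j i 1) +
            c * (single j i (1 : K) * single j i 1) := by
        rw [two_smul]
        noncomm_ring
      rw [h7, h5, h6, zero_mul, mul_zero, smul_smul]
      rw [zero_sub, add_zero, neg_mul, neg_smul]
    rw [h4] at h3
    have h8 : -2 * c i j ≠ 0 := mul_ne_zero (neg_ne_zero.2 h2) hne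
    have h9 := M.smul_mem (-2 * c i j)⁻¹ h3
    rwa [smul_smul, inv_mul_cancel₀ h8, one_smul] at h9
  -- flip
  have hflip : ∀ i j : n, i ≠ j → single i j (1 : K) ∈ M → single j i (1 : K) ∈ M := by
    intro i j hij h
    refine h1 _ h i j hij ?_
    simp
  -- change of the row
  have hrow : ∀ i j k : n, i ≠ j → k ≠ j → single i j (1 : K) ∈ M → single k j (1 : K) ∈ M := by
    intro i j k hij hkj h
    by_cases hki : k = i
    · rw [hki]
      exact h
    have h3 := hM (single k i 1) (Matrix.trace_single_eq_of_ne _ _ _ hki) _ h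
    rw [single_mul_single_same, single_mul_single_of_ne _ _ _ _ (Ne.symm hkj), sub_zero, one_mul] at h3
    exact h3
  have hcol : ∀ i j l : n, i ≠ j → l ≠ i → single i j (1 : K) ∈ M → single i l (1 : K) ∈ M := by
    intro i j l hij hli h
    exact hflip l i hli (hrow j i l (Ne.symm hij) hli (hflip i j hij h))
  -- some elementary matrix
  obtain ⟨i, j, hij, hE⟩ : ∃ i j : n, i ≠ j ∧ single i j (1 : K) ∈ M := by
    by_cases hA : ∃ i j : n, i ≠ j ∧ c i j ≠ 0
    · obtain ⟨i, j, hij, h⟩ := hA
      exact ⟨j, i, Ne.symm hij, h1 c hc i j hij h⟩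
    · push Not at hA
      by_cases hB : ∃ i j : n, c i i ≠ c j j
      · obtain ⟨i, j, h⟩ := hB
        have hij : i ≠ j := by
          rintro rfl
          exact h rfl
        have h3 := hM (single i j 1) (Matrix.trace_single_eq_of_ne _ _ _ hij) c hc
        have h4 : single i j (1 : K) * c - c * single i j 1 = (c j j - c i i) • single i j (1 : K) := by
          ext a b
          rw [Matrix.sub_apply, Matrix.smul_apply, smul_eq_mul]
          by_cases ha : a = i
          · subst ha
            rw [single_mul_apply_same]
            by_cases hb : b = j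
            · subst hb
              rw [mul_single_apply_same]
              simp
            · rw [mul_single_apply_of_ne _ _ _ _ _ hb, hA j b (Ne.symm hb)]
              simp [Ne.symm hb]
          · rw [single_mul_apply_of_ne _ _ _ _ _ ha]
            by_cases hb : b = j
            · subst hb
              rw [mul_single_apply_same, hA a i ha]
              simp [Ne.symm ha]
            · rw [mul_single_apply_of_ne _ _ _ _ _ hb]
              simp [Ne.symm ha]
        rw [h4] at h3
        have h8 : c j j - c i i ≠ 0 := sub_ne_zero.2 (Ne.symm h)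
        have h9 := M.smul_mem (c j j - c i i)⁻¹ h3
        rw [smul_smul, inv_mul_cancel₀ h8, one_smul] at h9
        exact ⟨i, j, hij, h9⟩
      · exfalso
        push Not at hB
        rcases isEmpty_or_nonempty n with hn | ⟨⟨i0⟩⟩
        · exact hns 0 (by ext a; exact hn.elim a)
        · refine hns (c i0 i0) ?_
          ext a b
          rw [Matrix.smul_apply, smul_eq_mul]
          by_cases hab : a = b
          · subst hab
            rw [one_apply_eq, mul_one]
            exact hB a i0
          · rw [one_apply_ne hab, mul_zero]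
            exact hA a b hab
  -- all of them
  have hall : ∀ k l : n, k ≠ l → single k l (1 : K) ∈ M := by
    intro k l hkl
    by_cases hk : k = j
    · subst hk
      exact hcol k i l (Ne.symm hij) (Ne.symm hkl) (hflip i k hij hE)
    · exact hcol k j l hk (Ne.symm hkl) (hrow i j k hij hk hE)
  have hdiag : ∀ k l : n, single k k (1 : K) - single l l 1 ∈ M := by
    intro k l
    by_cases hkl : k = l
    · subst hkl
      rw [sub_self]
      exact M.zero_mem
    · have h3 := hM (single k l 1) (Matrix.trace_single_eq_of_ne _ _ _ hkl) _ (hall l k (Ne.symm hkl))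
      rwa [single_mul_single_same, single_mul_single_same, one_mul] at h3
  -- decomposition
  have hdec : x = ∑ a : n, ∑ b : n, (if a = b then x a a • (single a a (1 : K) - single i i 1) else x a b • single a b (1 : K)) := by
    have h3 : ∀ a b : n, (if a = b then x a a • (single a a (1 : K) - single i i 1) else x a b • single a b (1 : K)) =
        single a b (x a b) - (if a = b then x a a • single i i (1 : K) else 0) := by
      intro a b
      by_cases hab : a = b
      · subst hab
        rw [if_pos rfl, if_pos rfl, smul_sub, smul_single, smul_eq_mul, mul_one]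
      · rw [if_neg hab, if_neg hab, sub_zero, smul_single, smul_eq_mul, mul_one]
    have h4 : ∑ a : n, ∑ b : n, (if a = b then x a a • single i i (1 : K) else 0) = 0 := by
      have h5 : ∀ a : n, ∑ b : n, (if a = b then x a a • single i i (1 : K) else 0) = x a a • single i i (1 : K) := by
        intro a
        rw [Finset.sum_ite_eq]
        simp
      rw [Finset.sum_congr rfl fun a _ => h5 a, ← Finset.sum_smul]
      have h6 : ∑ a, x a a = 0 := hx
      rw [h6, zero_smul]
    calc x = ∑ a : n, ∑ b : n, single a b (x a b) := matrix_eq_sum_single x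
      _ = ∑ a : n, ∑ b : n, single a b (x a b) - ∑ a : n, ∑ b : n, (if a = b then x a a • single i i (1 : K) else 0) := by
          rw [h4, sub_zero]
      _ = _ := by
          rw [← Finset.sum_sub_distrib]
          refine Finset.sum_congr rfl fun a _ => ?_
          rw [← Finset.sum_sub_distrib]
          exact Finset.sum_congr rfl fun b _ => (h3 a b).symm
  rw [hdec]
  refine M.sum_mem fun a _ => M.sum_mem fun b _ => ?_
  split_ifs with hab
  · exact M.smul_mem _ (hdiag a i)
  · exact M.smul_mem _ (hall a b hab)

/-- a matrix which commutes with all matrices of trace zero is a scalar -/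
theorem scalar_of_sl98 (hm : 1 < Fintype.card n) (z : Matrix n n K)
    (hz : ∀ s : Matrix n n K, s.trace = 0 → s * z = z * s) : ∃ c : K, z = c • 1 := by
  have h3 : ∀ i : n, ∃ k : n, k ≠ i := fun i => Fintype.exists_ne_of_one_lt_card hm i
  have key : ∀ i j k l : n, i ≠ j → (if k = i then z j l else 0) = (if l = j then z k i else 0) := by
    intro i j k l hij
    have h1 := congrFun (congrFun (hz (single i j 1) (Matrix.trace_single_eq_of_ne _ _ _ hij)) k) l
    have e1 : (single i j (1 : K) * z : Matrix n n K) k l = if k = i then z j l else 0 := by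
      by_cases hk : k = i
      · subst hk
        rw [Matrix.single_mul_apply_same]
        simp
      · rw [Matrix.single_mul_apply_of_ne _ _ _ _ _ hk]
        simp [hk]
    have e2 : (z * single i j (1 : K) : Matrix n n K) k l = if l = j then z k i else 0 := by
      by_cases hl : l = j
      · subst hl
        rw [Matrix.mul_single_apply_same]
        simp
      · rw [Matrix.mul_single_apply_of_ne _ _ _ _ _ hl]
        simp [hl]
    rw [e1, e2] at h1
    exact h1
  have hoff : ∀ k i : n, k ≠ i → z k i = 0 := by
    intro k i hki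
    obtain ⟨j, hji⟩ := h3 i
    have h1 := key i j k j (Ne.symm hji)
    rw [if_neg hki, if_pos rfl] at h1
    exact h1.symm
  have hdiag : ∀ i j : n, z i i = z j j := by
    intro i j
    by_cases hij : i = j
    · rw [hij]
    · have h1 := key i j i j hij
      rw [if_pos rfl, if_pos rfl] at h1
      exact h1.symm
  have hm0 : Nonempty n := by
    rw [← Fintype.card_pos_iff]
    omega
  obtain ⟨i0⟩ := hm0
  refine ⟨z i0 i0, ?_⟩
  ext k l
  rw [Matrix.smul_apply, Matrix.one_apply, smul_eq_mul]
  by_cases hkl : k = l
  · subst hkl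
    rw [if_pos rfl, mul_one, hdiag k i0]
  · rw [if_neg hkl, mul_zero, hoff k l hkl]

end ideal

/-- Q2: the residual group of type `SL` -/
theorem lift_sl {K : Type*} [Field K] {m : Type*} [Fintype m] [DecidableEq m] (O : ValuationSubring K)
    (h2 : (2 : IsLocalRing.ResidueField O) ≠ 0) (hm : 4 < Fintype.card m)
    (P : Set (Matrix m m (IsLocalRing.ResidueField O))) (hP : ∀ y ∈ P, y * y = 0)
    (hspan : ∀ s : Matrix m m (IsLocalRing.ResidueField O), s.trace = 0 →
      s ∈ Submodule.span (IsLocalRing.ResidueField O) P)
    (L : Submodule K (Matrix m m K)) (hbr : ∀ x ∈ L, ∀ y ∈ L, x * y - y * x ∈ L)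
    (hL : ∀ y ∈ P, ∃ g h : Matrix m m O, g * h = 1 ∧ g.map (IsLocalRing.residue O) = 1 + y ∧
      ∀ a ∈ L, g.map (algebraMap O K) * a * h.map (algebraMap O K) ∈ L ∧
        h.map (algebraMap O K) * a * g.map (algebraMap O K) ∈ L)
    (hns : ∃ c ∈ L, ∀ l : K, c ≠ l • (1 : Matrix m m K)) :
    ∀ x : Matrix m m K, x.trace = 0 → x ∈ L := by
  classical
  have hbr' : ∀ x ∈ redL O L, ∀ y ∈ redL O L, x * y - y * x ∈ redL O L := by
    rintro _ ⟨a, ha, rfl⟩ _ ⟨b, hb, rfl⟩
    refine ⟨a * b - b * a, ?_, ?_⟩
    · rw [Matrix.map_sub _ (fun _ _ => map_sub _ _ _), Matrix.map_mul, Matrix.map_mul]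
      exact hbr _ ha _ hb
    · rw [Matrix.map_sub _ (fun _ _ => map_sub _ _ _), Matrix.map_mul, Matrix.map_mul]
  have hinv : ∀ y ∈ P, ∀ g h : Matrix m m O, g * h = 1 → g.map (IsLocalRing.residue O) = 1 + y →
      h.map (IsLocalRing.residue O) = 1 - y := by
    intro y hy g h hgh hg
    have e1 : (1 - y) * (1 + y) = 1 := by
      calc (1 - y) * (1 + y) = 1 - y * y := by noncomm_ring
        _ = 1 := by rw [hP y hy, sub_zero]
    have h3 : g.map (IsLocalRing.residue O) * h.map (IsLocalRing.residue O) = 1 := by
      rw [← Matrix.map_mul, hgh]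
      simp
    rw [hg] at h3
    calc h.map (IsLocalRing.residue O) = ((1 - y) * (1 + y)) * h.map (IsLocalRing.residue O) := by
          rw [e1, one_mul]
      _ = 1 - y := by rw [mul_assoc, h3, mul_one]
  have hadP : ∀ y ∈ P, ∀ a ∈ redL O L, y * a - a * y ∈ redL O L := by
    rintro y hy _ ⟨a, ha, rfl⟩
    obtain ⟨g, h, hgh, hg, hst⟩ := hL y hy
    have hh := hinv y hy g h hgh hg
    have k1 : (1 + y) * a.map (IsLocalRing.residue O) * (1 - y) ∈ redL O L := by
      refine ⟨g * a * h, ?_, ?_⟩
      · rw [Matrix.map_mul, Matrix.map_mul]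
        exact (hst _ ha).1
      · rw [Matrix.map_mul, Matrix.map_mul, hg, hh]
    have k2 : (1 - y) * a.map (IsLocalRing.residue O) * (1 + y) ∈ redL O L := by
      refine ⟨h * a * g, ?_, ?_⟩
      · rw [Matrix.map_mul, Matrix.map_mul]
        exact (hst _ ha).2
      · rw [Matrix.map_mul, Matrix.map_mul, hg, hh]
    have k3 := (redL O L).sub_mem k1 k2
    have e : (1 + y) * a.map (IsLocalRing.residue O) * (1 - y) - (1 - y) * a.map (IsLocalRing.residue O) * (1 + y)
        = (2 : IsLocalRing.ResidueField O) • (y * a.map (IsLocalRing.residue O) - a.map (IsLocalRing.residue O) * y) := by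
      rw [two_smul]
      noncomm_ring
    rw [e] at k3
    have k4 := (redL O L).smul_mem ((2 : IsLocalRing.ResidueField O)⁻¹) k3
    rwa [smul_smul, inv_mul_cancel₀ h2, one_smul] at k4
  have had : ∀ s : Matrix m m (IsLocalRing.ResidueField O), s.trace = 0 → ∀ a ∈ redL O L,
      s * a - a * s ∈ redL O L := by
    intro s hsJ a ha
    have hsp := hspan s hsJ
    clear hsJ
    induction hsp using Submodule.span_induction with
    | mem y hy => exact hadP y hy a ha
    | zero => rw [Matrix.zero_mul, Matrix.mul_zero, sub_zero]; exact (redL O L).zero_mem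
    | add x y _ _ h3 h4 =>
      have : (x + y) * a - a * (x + y) = (x * a - a * x) + (y * a - a * y) := by noncomm_ring
      rw [this]
      exact (redL O L).add_mem h3 h4
    | smul c x _ h3 =>
      have : (c • x) * a - a * (c • x) = c • (x * a - a * x) := by
        rw [Matrix.smul_mul, Matrix.mul_smul, smul_sub]
      rw [this]
      exact (redL O L).smul_mem c h3
  suffices hns' : ∃ c ∈ redL O L, ∀ l : IsLocalRing.ResidueField O, c ≠ l • (1 : Matrix m m (IsLocalRing.ResidueField O)) by
    obtain ⟨c, hc, hcs⟩ := hns'
    exact full_of_red98 O h2 L hbr fun x hx => ideal_top98 h2 (redL O L) had hc hcs x hx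
  obtain ⟨c, hc, hcs⟩ := hns
  have hm0 : Nonempty m := by
    rw [← Fintype.card_pos_iff]
    omega
  obtain ⟨i0⟩ := hm0
  set b : Matrix m m K := c - (c i0 i0) • 1 with hb
  have hb0 : b ≠ 0 := fun h0 => hcs (c i0 i0) (sub_eq_zero.1 h0)
  have hbi : b i0 i0 = 0 := by
    rw [hb, Matrix.sub_apply, Matrix.smul_apply, Matrix.one_apply_eq, smul_eq_mul, mul_one, sub_self]
  obtain ⟨d, hd0, hdO, i, j, hij⟩ := exists_max98 O b hb0
  let x : Matrix m m O := Matrix.of fun i j => ⟨d⁻¹ * b i j, hdO i j⟩
  have hx : x.map (algebraMap O K) = d⁻¹ • b := by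
    ext k l
    rfl
  have hxns : ¬ ∃ l : IsLocalRing.ResidueField O, x.map (IsLocalRing.residue O) = l • 1 := by
    rintro ⟨l, hl⟩
    have hl0 : l = 0 := by
      have h4 := congrFun (congrFun hl i0) i0
      rw [Matrix.smul_apply, Matrix.one_apply_eq, smul_eq_mul, mul_one, Matrix.map_apply] at h4
      rw [← h4]
      have h5 : x i0 i0 = 0 := by
        apply Subtype.ext
        show d⁻¹ * b i0 i0 = 0
        rw [hbi, mul_zero]
      rw [h5, map_zero]
    have h6 := congrFun (congrFun hl i) j
    have h7 : x i j = 1 := by
      apply Subtype.ext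
      exact hij
    rw [hl0, zero_smul, Matrix.zero_apply, Matrix.map_apply, h7, map_one] at h6
    exact one_ne_zero h6
  have hv : ∃ y ∈ P, y * x.map (IsLocalRing.residue O) - x.map (IsLocalRing.residue O) * y ≠ 0 := by
    by_contra hcon
    push Not at hcon
    apply hxns
    have hcomm : ∀ s : Matrix m m (IsLocalRing.ResidueField O), s.trace = 0 →
        s * x.map (IsLocalRing.residue O) = x.map (IsLocalRing.residue O) * s := by
      intro s hsJ
      have hsp := hspan s hsJ
      clear hsJ
      induction hsp using Submodule.span_induction with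
      | mem y hy => exact sub_eq_zero.1 (hcon y hy)
      | zero => rw [Matrix.zero_mul, Matrix.mul_zero]
      | add u v _ _ h3 h4 => rw [Matrix.add_mul, Matrix.mul_add, h3, h4]
      | smul c u _ h3 => rw [Matrix.smul_mul, Matrix.mul_smul, h3]
    exact scalar_of_sl98 (by omega) _ hcomm
  obtain ⟨E, hE, hne⟩ := hv
  obtain ⟨g, h, hgh, hg, hst⟩ := hL E hE
  have hh := hinv E hE g h hgh hg
  have hEE := hP E hE
  refine ⟨(g * x * h - x).map (IsLocalRing.residue O), ⟨g * x * h - x, ?_, rfl⟩, ?_⟩
  · rw [Matrix.map_sub _ (fun _ _ => map_sub _ _ _), Matrix.map_mul, Matrix.map_mul, hx]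
    have h8 : g.map (algebraMap O K) * (d⁻¹ • b) * h.map (algebraMap O K) - d⁻¹ • b
        = d⁻¹ • (g.map (algebraMap O K) * c * h.map (algebraMap O K) - c) := by
      have h9 : g.map (algebraMap O K) * h.map (algebraMap O K) = 1 := by
        rw [← Matrix.map_mul, hgh]
        exact Matrix.map_one _ (map_zero _) (map_one _)
      rw [Matrix.mul_smul, Matrix.smul_mul, ← smul_sub, hb]
      congr 1
      rw [Matrix.mul_sub, Matrix.sub_mul, Matrix.mul_smul, Matrix.smul_mul, Matrix.mul_one, h9]
      abel
    rw [h8]
    exact L.smul_mem _ (L.sub_mem (hst c hc).1 hc)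
  · intro l hl
    rw [Matrix.map_sub _ (fun _ _ => map_sub _ _ _), Matrix.map_mul, Matrix.map_mul, hg, hh] at hl
    set X := x.map (IsLocalRing.residue O) with hX
    -- `[E, X] = l (1 + E)`
    have h10 : E * X - X * E = l • (1 + E) := by
      have h11 := congrArg (fun M => M * (1 + E)) hl
      have h12 : ((1 + E) * X * (1 - E) - X) * (1 + E) = (E * X - X * E) - (1 + E) * X * (E * E) := by noncomm_ring
      have h13 : (l • (1 : Matrix m m (IsLocalRing.ResidueField O))) * (1 + E) = l • (1 + E) := by
        rw [Matrix.smul_mul, Matrix.one_mul]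
      rw [h12, h13, hEE, Matrix.mul_zero, sub_zero] at h11
      exact h11
    have h14 : E * (E * X - X * E) = -(E * X * E) := by
      rw [Matrix.mul_sub, ← Matrix.mul_assoc, hEE, Matrix.zero_mul, zero_sub, ← Matrix.mul_assoc]
    have h15 : (E * X - X * E) * E = E * X * E := by
      rw [Matrix.sub_mul, Matrix.mul_assoc X, hEE, Matrix.mul_zero, sub_zero]
    have h16 : E * (l • (1 + E)) = l • E := by
      rw [Matrix.mul_smul, Matrix.mul_add, Matrix.mul_one, hEE, add_zero]
    have h17 : (l • (1 + E)) * E = l • E := by
      rw [Matrix.smul_mul, Matrix.add_mul, Matrix.one_mul, hEE, add_zero]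
    rw [h10, h16] at h14
    rw [h10, h17] at h15
    have h18 : (2 * l) • E = 0 := by
      rw [two_mul, add_smul]
      nth_rewrite 1 [h15]
      rw [h14]
      abel
    rcases smul_eq_zero.1 h18 with h19 | h19
    · rcases mul_eq_zero.1 h19 with h20 | h20
      · exact h2 h20
      · apply hne
        rw [h10, h20, zero_smul]
    · apply hne
      rw [h19, Matrix.zero_mul, Matrix.mul_zero, sub_zero]

end Pool.Agent.Helper79.KQ
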